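import Pool.Agent.Lib.TNF.CV.Spec

/-!
# TNF/CV: module Al1 (algebraic over `ℚ(u, z)`: a polynomial relation over `ℚ(u)[z]`)
-/

set_option autoImplicit false

open Topology Metric

noncomputable section

namespace TNF.CV

open TATE

private theorem Al1_le {q : ℕ} (u : Fin q → ℂ) (z : ℂ) :
    ∀ x ∈ IntermediateField.adjoin ℚ (Set.range (Fin.snoc u z : Fin (q + 1) → ℂ)),
      x ∈ IntermediateField.adjoin (Qs u) ({z} : Set ℂ) := by
  have h : IntermediateField.adjoin ℚ (Set.range (Fin.snoc u z : Fin (q + 1) → ℂ)) ≤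
      (IntermediateField.adjoin (Qs u) ({z} : Set ℂ)).restrictScalars ℚ := by
    rw [IntermediateField.adjoin_le_iff]
    rintro _ ⟨i, rfl⟩
    refine Fin.lastCases ?_ (fun j => ?_) i
    · rw [Fin.snoc_last]
      exact IntermediateField.subset_adjoin (Qs u) ({z} : Set ℂ) rfl
    · rw [Fin.snoc_castSucc]
      exact (IntermediateField.adjoin (Qs u) ({z} : Set ℂ)).algebraMap_mem
        ⟨u j, IntermediateField.subset_adjoin ℚ _ ⟨j, rfl⟩⟩
  exact fun x hx => h hx

open IntermediateField.algebraAdjoinAdjoin in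
private theorem Al1_adj {q : ℕ} (u : Fin q → ℂ) (z a : ℂ)
    (ha : AlgO (Fin.snoc u z : Fin (q + 1) → ℂ) a) :
    IsAlgebraic (Algebra.adjoin (Qs u) ({z} : Set ℂ)) a := by
  refine (IsFractionRing.isAlgebraic_iff (Algebra.adjoin (Qs u) ({z} : Set ℂ))
    (IntermediateField.adjoin (Qs u) ({z} : Set ℂ)) ℂ).2 ?_
  let j : IntermediateField.adjoin ℚ (Set.range (Fin.snoc u z : Fin (q + 1) → ℂ)) →+*
      IntermediateField.adjoin (Qs u) ({z} : Set ℂ) :=
    { toFun := fun x => ⟨x.1, Al1_le u z x.1 x.2⟩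
      map_one' := rfl
      map_mul' := fun _ _ => rfl
      map_zero' := rfl
      map_add' := fun _ _ => rfl }
  obtain ⟨p, hp, hpa⟩ := ha
  refine ⟨p.map j, ?_, ?_⟩
  · rw [Ne, Polynomial.map_eq_zero]
    exact hp
  · rw [Polynomial.aeval_def, Polynomial.eval₂_map]
    rw [Polynomial.aeval_def] at hpa
    exact hpa

theorem tAl1 : S_Al1 := by
  classical
  intro q u z a ha
  obtain ⟨g, hg, hga⟩ := Al1_adj u z a ha
  have hc : ∀ i, ∃ P : Polynomial (Qs u), Polynomial.aeval z P = ((g.coeff i : ℂ)) := by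
    have h2 : ∀ c : ℂ, c ∈ Algebra.adjoin (Qs u) ({z} : Set ℂ) →
        ∃ P : Polynomial (Qs u), Polynomial.aeval z P = c := by
      intro c h1
      rw [Algebra.adjoin_singleton_eq_range_aeval] at h1
      exact h1
    exact fun i => h2 _ (g.coeff i).2
  choose P hP using hc
  set f : Polynomial (Polynomial ℂ) := ∑ i ∈ g.support,
    Polynomial.monomial i ((P i).map (algebraMap (Qs u) ℂ)) with hf
  have hcoef : ∀ i, f.coeff i = if i ∈ g.support then (P i).map (algebraMap (Qs u) ℂ) else 0 := by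
    intro i
    rw [hf, Polynomial.finsetSum_coeff]
    simp only [Polynomial.coeff_monomial]
    rw [Finset.sum_ite_eq' g.support i]
  have hev : ∀ i, ((P i).map (algebraMap (Qs u) ℂ)).eval z = (g.coeff i : ℂ) := by
    intro i
    rw [Polynomial.eval_map, ← hP i, Polynomial.aeval_def]
  refine ⟨f, ?_, ?_, ?_⟩
  · intro i k
    rw [hcoef]
    split_ifs
    · rw [Polynomial.coeff_map]
      exact ((P i).coeff k).2
    · rw [Polynomial.coeff_zero]
      exact (Qs u).zero_mem
  · intro h0
    obtain ⟨i, hi⟩ := Polynomial.support_nonempty.2 hg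
    have h1 := hcoef i
    rw [if_pos hi, h0, Polynomial.coeff_zero] at h1
    have h2 := hev i
    rw [← h1, Polynomial.eval_zero] at h2
    apply Polynomial.mem_support_iff.1 hi
    exact Subtype.ext h2.symm
  · have h1 : ev f z a = ∑ i ∈ g.support, (g.coeff i : ℂ) * a ^ i := by
      unfold ev
      rw [hf, Polynomial.eval₂_finsetSum]
      refine Finset.sum_congr rfl fun i _ => ?_
      rw [Polynomial.eval₂_monomial, Polynomial.coe_evalRingHom, hev]
    rw [h1]
    rw [Polynomial.aeval_def, Polynomial.eval₂_eq_sum, Polynomial.sum_def] at hga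
    exact hga

end TNF.CV
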