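import Pool.Agent.Lib.TNF.CV.Spec

/-!
# Countability of the polynomials over `ℚ(u)`
-/

set_option autoImplicit false

open Topology Metric

noncomputable section

namespace TNF.CV

open TATE

theorem tAl2 : S_Al2 := by
  intro q u
  have h1 : Countable (TATE.Qs u) := TATE.Qs_countable u
  have h2 : Countable (Polynomial (TATE.Qs u)) := by
    rw [← Cardinal.mk_le_aleph0_iff]
    refine Polynomial.cardinalMk_le_max.trans ?_
    exact max_le (Cardinal.mk_le_aleph0_iff.mpr h1) le_rfl
  have h3 : Countable (Polynomial (Polynomial (TATE.Qs u))) := by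
    rw [← Cardinal.mk_le_aleph0_iff]
    refine Polynomial.cardinalMk_le_max.trans ?_
    exact max_le (Cardinal.mk_le_aleph0_iff.mpr h2) le_rfl
  refine (Set.countable_range fun F : Polynomial (Polynomial (TATE.Qs u)) =>
    F.map (Polynomial.mapRingHom (algebraMap (TATE.Qs u) ℂ))).mono ?_
  intro f hf
  have h4 : ∀ i, ∃ g : Polynomial (TATE.Qs u),
      Polynomial.mapRingHom (algebraMap (TATE.Qs u) ℂ) g = f.coeff i := by
    intro i
    have h5 : f.coeff i ∈ Polynomial.lifts (algebraMap (TATE.Qs u) ℂ) := by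
      rw [Polynomial.lifts_iff_coeff_lifts]
      intro j
      exact ⟨⟨(f.coeff i).coeff j, hf i j⟩, rfl⟩
    obtain ⟨g, hg⟩ := (Polynomial.mem_lifts _).mp h5
    exact ⟨g, hg⟩
  have h6 : f ∈ Polynomial.lifts (Polynomial.mapRingHom (algebraMap (TATE.Qs u) ℂ)) := by
    rw [Polynomial.lifts_iff_coeff_lifts]
    intro i
    exact h4 i
  obtain ⟨F, hF⟩ := (Polynomial.mem_lifts _).mp h6
  exact ⟨F, hF⟩

end TNF.CV
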