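import Pool.Agent.Lib.TNF.CV.Spec

set_option autoImplicit false

open Topology Metric

noncomputable section

namespace TNF.CV

open TATE

private lemma meagre_of_countable {s : Set ℂ} (hs : s.Countable) : IsMeagre s := by
  have h1 : s = ⋃ z ∈ s, ({z} : Set ℂ) := by
    ext x
    simp
  rw [h1]
  refine isMeagre_biUnion hs fun z _ => ?_
  refine IsNowhereDense.isMeagre ?_
  rw [IsNowhereDense, closure_singleton, interior_singleton]

theorem tBai (h1 : S_Sev) (h2 : S_Szr) (h3 : S_Al1) (h4 : S_Al2) : S_Bai := by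
  intro q u ρ g φ hρ hg D hD hA
  by_contra hcon
  have hne : ∀ f ∈ Kf u, f ≠ 0 → evS f φ ≠ 0 := by
    intro f hf hf0 h0
    exact hcon ⟨f, hf, hf0, h0⟩
  set K : Set (Polynomial (Polynomial ℂ)) := {f | f ∈ Kf u ∧ f ≠ 0} with hK
  have hKc : K.Countable := (h4 q u).mono fun f hf => hf.1
  set Z : Set ℂ := ⋃ f ∈ K, {z ∈ ball (0 : ℂ) ρ | ev f z (g z) = 0} with hZ
  have hZm : IsMeagre Z := by
    refine isMeagre_biUnion hKc fun f hf => ?_
    exact meagre_of_countable (h2 ρ (fun z => ev f z (g z)) (evS f φ) hρ (h1 ρ g φ hg f)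
      (hne f hf.1 hf.2))
  have hsub : ball (0 : ℂ) ρ ⊆ D ∪ Z := by
    intro z hz
    by_cases hzD : z ∈ D
    · exact Or.inl hzD
    · right
      obtain ⟨f, hf, hf0, hfz⟩ := h3 q u z (g z) (hA z hz hzD)
      rw [hZ, Set.mem_iUnion₂]
      exact ⟨f, ⟨hf, hf0⟩, hz, hfz⟩
  exact not_isMeagre_of_isOpen isOpen_ball ⟨0, mem_ball_self hρ⟩ ((hD.union hZm).mono hsub)

end TNF.CV
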