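import Pool.Agent.Lib.TNF.CV.Spec

/-! # Conjugation of the coefficients commutes with polynomials -/

set_option autoImplicit false

open Topology Metric

noncomputable section

namespace TNF.CV

open TATE

theorem tCjg : S_Cjg := by
  intro σ
  refine ⟨fun f φ hf => ?_, fun ι G θ => ?_⟩
  · unfold evS
    rw [Polynomial.hom_eval₂, Polynomial.eval₂_eq_sum_range, Polynomial.eval₂_eq_sum_range]
    refine Finset.sum_congr rfl fun i _ => ?_
    congr 1
    rw [RingHom.comp_apply]
    ext j
    rw [PowerSeries.coeff_map, Polynomial.coeToPowerSeries.ringHom_apply, Polynomial.coeff_coe]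
    exact (hf i j).symm
  · induction G using MvPolynomial.induction_on with
    | C a =>
      rw [MvPolynomial.map_C, MvPolynomial.aeval_C, MvPolynomial.aeval_C]
      change PowerSeries.C (algebraMap ℚ ℂ a) =
        PowerSeries.map (σ : ℂ →+* ℂ) (PowerSeries.C (algebraMap ℚ ℂ a))
      rw [PowerSeries.map_C]
      congr 1
      exact (map_ratCast (σ : ℂ →+* ℂ) a).symm
    | add p q hp hq => rw [map_add, map_add, map_add, map_add, hp, hq]
    | mul_X p i hp => rw [map_mul, map_mul, map_mul, map_mul, hp, MvPolynomial.map_X,
        MvPolynomial.aeval_X, MvPolynomial.aeval_X]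

end TNF.CV
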