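import Pool.Agent.Lib.TNF.CV.Spec

/-! TNF/CV, module Cn1: reduction of an algebraic power series to a simple root. -/

set_option autoImplicit false

open Topology Metric

noncomputable section

namespace TNF.CV

open TATE

private theorem Cn1_evS_coe (f : Polynomial (Polynomial ℂ)) (q : Polynomial ℂ) :
    evS f (q : PowerSeries ℂ) = ((Polynomial.eval q f : Polynomial ℂ) : PowerSeries ℂ) := by
  unfold evS
  rw [← Polynomial.coeToPowerSeries.ringHom_apply, ← Polynomial.coeToPowerSeries.ringHom_apply,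
    Polynomial.eval₂_at_apply]

private theorem Cn1_evS_sub_dvd (f : Polynomial (Polynomial ℂ)) (a b : PowerSeries ℂ) :
    a - b ∣ evS f a - evS f b := by
  unfold evS
  rw [Polynomial.eval₂_eq_eval_map, Polynomial.eval₂_eq_eval_map]
  exact Polynomial.sub_dvd_eval_sub _ _ _

private theorem Cn1_evS_comp (f r : Polynomial (Polynomial ℂ)) (a : PowerSeries ℂ) :
    evS (f.comp r) a = evS f (evS r a) := by
  unfold evS
  rw [Polynomial.eval₂_comp]

private theorem Cn1_evS_mul (f r : Polynomial (Polynomial ℂ)) (a : PowerSeries ℂ) :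
    evS (f * r) a = evS f a * evS r a := by
  unfold evS
  rw [Polynomial.eval₂_mul]

private theorem Cn1_evS_C (r : Polynomial ℂ) (a : PowerSeries ℂ) :
    evS (Polynomial.C r) a = (r : PowerSeries ℂ) := by
  unfold evS
  rw [Polynomial.eval₂_C, Polynomial.coeToPowerSeries.ringHom_apply]

private theorem Cn1_evS_X (a : PowerSeries ℂ) : evS Polynomial.X a = a := by
  unfold evS
  rw [Polynomial.eval₂_X]

private theorem Cn1_evS_add (f r : Polynomial (Polynomial ℂ)) (a : PowerSeries ℂ) :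
    evS (f + r) a = evS f a + evS r a := by
  unfold evS
  rw [Polynomial.eval₂_add]

/-- an annihilating polynomial of minimal degree: its derivative does not annihilate -/
private theorem Cn1_min (φ : PowerSeries ℂ) (f : Polynomial (Polynomial ℂ)) (hf : f ≠ 0)
    (h : evS f φ = 0) : ∃ f1 : Polynomial (Polynomial ℂ), evS f1 φ = 0 ∧
      evS (Polynomial.derivative f1) φ ≠ 0 := by
  classical
  have hex : ∃ n : ℕ, ∃ g : Polynomial (Polynomial ℂ), g ≠ 0 ∧ evS g φ = 0 ∧ g.natDegree = n :=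
    ⟨_, f, hf, h, rfl⟩
  obtain ⟨g, hg0, hg, hgn⟩ := Nat.find_spec hex
  refine ⟨g, hg, ?_⟩
  intro h'
  have hdeg : g.natDegree ≠ 0 := by
    intro h0
    have hC := Polynomial.eq_C_of_natDegree_eq_zero h0
    rw [hC, Cn1_evS_C, Polynomial.coe_eq_zero_iff] at hg
    apply hg0
    rw [hC, hg, Polynomial.C_0]
  have hd : Polynomial.derivative g ≠ 0 := by
    intro h0
    exact hdeg (Polynomial.derivative_eq_zero.1 h0)
  have hlt := Polynomial.natDegree_derivative_lt hdeg
  exact Nat.find_min hex (m := (Polynomial.derivative g).natDegree) (by rw [← hgn]; exact hlt)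
    ⟨_, hd, h', rfl⟩

theorem tCn1 : S_Cn1 := by
  classical
  intro φ f0 hf0 h0
  obtain ⟨f, hf, hf'⟩ := Cn1_min φ f0 hf0 h0
  -- the order of `evS f' φ`
  have hex : ∃ n : ℕ, PowerSeries.coeff n (evS (Polynomial.derivative f) φ) ≠ 0 := by
    by_contra hcon
    push Not at hcon
    apply hf'
    ext n
    rw [hcon n, map_zero]
  obtain ⟨e, he, hemin⟩ : ∃ e : ℕ, PowerSeries.coeff e (evS (Polynomial.derivative f) φ) ≠ 0 ∧
      ∀ m < e, PowerSeries.coeff m (evS (Polynomial.derivative f) φ) = 0 :=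
    ⟨Nat.find hex, Nat.find_spec hex, fun m hm => by_contra fun h => Nat.find_min hex hm h⟩
  set q : Polynomial ℂ := PowerSeries.trunc (2 * e + 1) φ with hq
  have hdvd : (PowerSeries.X : PowerSeries ℂ) ^ (2 * e + 1) ∣ φ - (q : PowerSeries ℂ) := by
    rw [PowerSeries.X_pow_dvd_iff]
    intro m hm
    rw [map_sub, Polynomial.coeff_coe, hq, PowerSeries.coeff_trunc, if_pos hm, sub_self]
  -- coefficients of `f(q)` and `f'(q)`
  have hco : ∀ (g : Polynomial (Polynomial ℂ)) (m : ℕ), m < 2 * e + 1 →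
      (Polynomial.eval q g).coeff m = PowerSeries.coeff m (evS g φ) := by
    intro g m hm
    have h1 : (PowerSeries.X : PowerSeries ℂ) ^ (2 * e + 1) ∣
        evS g φ - ((Polynomial.eval q g : Polynomial ℂ) : PowerSeries ℂ) := by
      rw [← Cn1_evS_coe]
      exact hdvd.trans (Cn1_evS_sub_dvd g φ q)
    have h2 := (PowerSeries.X_pow_dvd_iff.1 h1) m hm
    rw [map_sub, Polynomial.coeff_coe] at h2
    exact (sub_eq_zero.1 h2).symm
  have hT0 : (Polynomial.X : Polynomial ℂ) ^ (2 * e + 1) ∣ Polynomial.eval q f := by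
    rw [Polynomial.X_pow_dvd_iff]
    intro d hd
    rw [hco f d hd, hf, map_zero]
  have hT1 : (Polynomial.X : Polynomial ℂ) ^ e ∣ Polynomial.eval q (Polynomial.derivative f) := by
    rw [Polynomial.X_pow_dvd_iff]
    intro d hd
    rw [hco _ d (by omega), hemin d hd]
  have hT1' : (Polynomial.eval q (Polynomial.derivative f)).coeff e ≠ 0 := by
    rw [hco _ e (by omega)]
    exact he
  obtain ⟨ψ, hψ⟩ := hdvd
  obtain ⟨a, ha⟩ := hT1
  have ha0 : a.coeff 0 ≠ 0 := by
    have h1 := hT1'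
    rw [ha] at h1
    have h2 := Polynomial.coeff_X_pow_mul a e 0
    rw [zero_add] at h2
    rw [h2] at h1
    exact h1
  obtain ⟨b, hb⟩ := hT0
  set T : Polynomial (Polynomial ℂ) := Polynomial.taylor q f with hT
  set G : Polynomial (Polynomial ℂ) :=
    T.comp (Polynomial.C (Polynomial.X ^ e) * Polynomial.X) with hG
  have hGc : ∀ j, G.coeff j = T.coeff j * (Polynomial.X ^ e) ^ j := by
    intro j
    rw [hG, Polynomial.comp_C_mul_X_coeff]
  have hG0 : G.coeff 0 = Polynomial.X ^ (2 * e) * (Polynomial.X * b) := by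
    rw [hGc, hT, Polynomial.taylor_coeff_zero, hb]
    ring
  have hG1 : G.coeff 1 = Polynomial.X ^ (2 * e) * a := by
    rw [hGc, hT, Polynomial.taylor_coeff_one, ha]
    ring
  have hdv : Polynomial.C ((Polynomial.X : Polynomial ℂ) ^ (2 * e)) ∣ G := by
    rw [Polynomial.C_dvd_iff_dvd_coeff]
    intro j
    rcases j with _ | _ | j
    · rw [hG0]
      exact Dvd.intro _ rfl
    · rw [zero_add, hG1]
      exact Dvd.intro _ rfl
    · rw [hGc, ← pow_mul]
      refine Dvd.dvd.mul_left (pow_dvd_pow _ ?_) _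
      nlinarith [Nat.zero_le (e * j)]
  obtain ⟨F, hF⟩ := hdv
  have hX : (Polynomial.X : Polynomial ℂ) ^ (2 * e) ≠ 0 := pow_ne_zero _ Polynomial.X_ne_zero
  have hFc : ∀ j, G.coeff j = Polynomial.X ^ (2 * e) * F.coeff j := by
    intro j
    rw [hF, Polynomial.coeff_C_mul]
  have hF0 : F.coeff 0 = Polynomial.X * b := by
    have h1 := hFc 0
    rw [hG0] at h1
    exact (mul_left_cancel₀ hX h1).symm
  have hF1 : F.coeff 1 = a := by
    have h1 := hFc 1
    rw [hG1] at h1
    exact (mul_left_cancel₀ hX h1).symm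
  have hGU : evS G (PowerSeries.X ^ (e + 1) * ψ) = 0 := by
    rw [hG, Cn1_evS_comp, Cn1_evS_mul, Cn1_evS_C, Cn1_evS_X, hT, Polynomial.taylor_apply,
      Cn1_evS_comp, Cn1_evS_add, Cn1_evS_C, Cn1_evS_X]
    have h1 : ((Polynomial.X ^ e : Polynomial ℂ) : PowerSeries ℂ) * (PowerSeries.X ^ (e + 1) * ψ)
        + (q : PowerSeries ℂ) = φ := by
      rw [Polynomial.coe_pow, Polynomial.coe_X]
      have h2 : φ = PowerSeries.X ^ (2 * e + 1) * ψ + (q : PowerSeries ℂ) := by
        rw [← hψ]
        ring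
      calc (PowerSeries.X : PowerSeries ℂ) ^ e * (PowerSeries.X ^ (e + 1) * ψ) + (q : PowerSeries ℂ)
          = PowerSeries.X ^ (2 * e + 1) * ψ + (q : PowerSeries ℂ) := by ring
        _ = φ := h2.symm
    rw [h1]
    exact hf
  have hFU : evS F (PowerSeries.X ^ (e + 1) * ψ) = 0 := by
    rw [hF, Cn1_evS_mul, Cn1_evS_C] at hGU
    rcases mul_eq_zero.1 hGU with h1 | h1
    · exact absurd (Polynomial.coe_eq_zero_iff.1 h1) hX
    · exact h1
  refine ⟨e, q, F, PowerSeries.X ^ (e + 1) * ψ, ?_, ?_, hFU, ?_, ?_⟩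
  · have h2 : φ = (q : PowerSeries ℂ) + PowerSeries.X ^ (2 * e + 1) * ψ := by
      rw [← hψ]
      ring
    calc φ = (q : PowerSeries ℂ) + PowerSeries.X ^ (2 * e + 1) * ψ := h2
      _ = (q : PowerSeries ℂ) + PowerSeries.X ^ e * (PowerSeries.X ^ (e + 1) * ψ) := by ring
  · rw [pow_succ', mul_assoc, map_mul, PowerSeries.constantCoeff_X, zero_mul]
  · unfold ev
    rw [Polynomial.eval₂_at_zero, hF0]
    simp
  · unfold ev
    rw [Polynomial.eval₂_at_zero, Polynomial.coeff_derivative, zero_add, hF1]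
    simp only [Nat.cast_zero, zero_add, mul_one, Polynomial.coe_evalRingHom]
    rw [← Polynomial.coeff_zero_eq_eval_zero]
    exact ha0

end TNF.CV
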