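import Pool.Agent.Lib.TNF.CV.Spec

/-!
# TNF/CV: the implicit function theorem for a simple root
-/

set_option autoImplicit false

open Topology Metric

noncomputable section

namespace TNF.CV

open TATE

private def Cn2F (F : Polynomial (Polynomial ℂ)) (u : ℂ × ℂ) : ℂ := ev F u.1 u.2

private theorem Cn2_eq (F : Polynomial (Polynomial ℂ)) (u : ℂ × ℂ) :
    Cn2F F u = ∑ i ∈ Finset.range (F.natDegree + 1),
      (∑ j ∈ Finset.range ((F.coeff i).natDegree + 1), (F.coeff i).coeff j * u.1 ^ j) * u.2 ^ i := by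
  unfold Cn2F ev
  rw [Polynomial.eval₂_eq_sum_range]
  refine Finset.sum_congr rfl fun i _ => ?_
  rw [Polynomial.coe_evalRingHom, Polynomial.eval_eq_sum_range]

private theorem Cn2_contDiff (F : Polynomial (Polynomial ℂ)) : ContDiff ℂ ⊤ (Cn2F F) := by
  have h : Cn2F F = fun u : ℂ × ℂ => ∑ i ∈ Finset.range (F.natDegree + 1),
      (∑ j ∈ Finset.range ((F.coeff i).natDegree + 1), (F.coeff i).coeff j * u.1 ^ j) * u.2 ^ i := by
    funext u
    exact Cn2_eq F u
  rw [h]
  refine ContDiff.sum fun i _ => ContDiff.mul (ContDiff.sum fun j _ => ?_) (contDiff_snd.pow i)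
  exact contDiff_const.mul (contDiff_fst.pow j)

private theorem Cn2_deriv (F : Polynomial (Polynomial ℂ)) (z x : ℂ) :
    HasDerivAt (fun x : ℂ => ev F z x) (ev (Polynomial.derivative F) z x) x := by
  have h1 := (F.map (Polynomial.evalRingHom z)).hasDerivAt x
  have h2 : (fun x : ℂ => (F.map (Polynomial.evalRingHom z)).eval x) = fun x => ev F z x := by
    funext x
    unfold ev
    rw [Polynomial.eval_map]
  have h3 : (Polynomial.derivative (F.map (Polynomial.evalRingHom z))).eval x =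
      ev (Polynomial.derivative F) z x := by
    unfold ev
    rw [Polynomial.derivative_map, Polynomial.eval_map]
  rw [h3] at h1
  rw [← h2]
  exact h1

private theorem Cn2_fderiv (F : Polynomial (Polynomial ℂ)) (u : ℂ × ℂ) :
    (fderiv ℂ (Cn2F F) u ∘L ContinuousLinearMap.inr ℂ ℂ ℂ) 1 = ev (Polynomial.derivative F) u.1 u.2 := by
  have hd : HasFDerivAt (Cn2F F) (fderiv ℂ (Cn2F F) u) u :=
    ((Cn2_contDiff F).differentiable (by simp) u).hasFDerivAt
  have h1 : HasDerivAt (fun x : ℂ => ((u.1, x) : ℂ × ℂ)) (0, 1) u.2 :=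
    (hasDerivAt_const u.2 u.1).prodMk (hasDerivAt_id u.2)
  have h2 : HasDerivAt (fun x : ℂ => Cn2F F (u.1, x)) (fderiv ℂ (Cn2F F) u (0, 1)) u.2 :=
    HasFDerivAt.comp_hasDerivAt (l := Cn2F F) (f := fun x : ℂ => ((u.1, x) : ℂ × ℂ)) u.2 hd h1
  have h3 : HasDerivAt (fun x : ℂ => Cn2F F (u.1, x)) (ev (Polynomial.derivative F) u.1 u.2) u.2 :=
    Cn2_deriv F u.1 u.2
  have h4 := h2.unique h3
  rw [ContinuousLinearMap.comp_apply, ContinuousLinearMap.inr_apply, h4]

/-- A simple root of `F (0, x)` extends to a holomorphic function. -/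
theorem tCn2 : S_Cn2 := by
  intro F h0 h1
  have cdf : ContDiffAt ℂ 1 (Cn2F F) ((0, 0) : ℂ × ℂ) :=
    ((Cn2_contDiff F).of_le (by simp)).contDiffAt
  have hinv : (fderiv ℂ (Cn2F F) ((0, 0) : ℂ × ℂ) ∘L
      ContinuousLinearMap.inr ℂ ℂ ℂ).IsInvertible := by
    refine ⟨ContinuousLinearEquiv.unitsEquivAut ℂ (Units.mk0 _ h1), ?_⟩
    ext
    rw [Cn2_fderiv]
    simp
  have hF0 : Cn2F F ((0, 0) : ℂ × ℂ) = 0 := h0
  have h2 := cdf.contDiffAt_implicitFunction one_ne_zero hinv
  have h3 := cdf.eventually_apply_implicitFunction one_ne_zero hinv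
  rw [hF0] at h3
  have h4 : ∀ᶠ z in 𝓝 (0 : ℂ), DifferentiableAt ℂ (cdf.implicitFunction one_ne_zero hinv) z :=
    (h2.eventually (by simp)).mono fun s hs => hs.differentiableAt (by simp)
  obtain ⟨ρ, hρ, hb⟩ := Metric.eventually_nhds_iff_ball.1 (h4.and h3)
  exact ⟨ρ, cdf.implicitFunction one_ne_zero hinv, hρ,
    fun z hz => (hb z hz).1.differentiableWithinAt,
    cdf.implicitFunction_apply_self one_ne_zero hinv, fun z hz => (hb z hz).2⟩

end TNF.CV
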