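import Pool.Agent.Lib.TNF.CV.Spec

/-!
# TNF/CV/Cnv: algebraic power series converge
-/

set_option autoImplicit false

open Topology Metric

noncomputable section

namespace TNF.CV

open TATE

private lemma cnv_pow (hSrg : S_Srg) (ρ : ℝ) (N : ℕ) :
    Ser ρ (fun z => z ^ N) ((PowerSeries.X : PowerSeries ℂ) ^ N) := by
  obtain ⟨h1, hX, -, hm⟩ := hSrg ρ
  induction N with
  | zero => simpa using h1 1
  | succ n ih =>
    have h := hm _ _ _ _ ih hX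
    simpa only [← pow_succ] using h

private lemma cnv_poly (hSrg : S_Srg) (ρ : ℝ) (q : Polynomial ℂ) :
    Ser ρ (fun z => q.eval z) (q : PowerSeries ℂ) := by
  obtain ⟨h1, hX, ha, hm⟩ := hSrg ρ
  induction q using Polynomial.induction_on with
  | C a => simpa using h1 a
  | add p q hp hq => simpa using ha _ _ _ _ hp hq
  | monomial n a _ =>
    have h := hm _ _ _ _ (h1 a) (cnv_pow hSrg ρ (n + 1))
    simpa using h

private lemma cnv_ball {ρ : ℝ} (hρ : 0 < ρ) : ¬ (ball (0 : ℂ) ρ).Countable := by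
  intro h
  obtain ⟨z, hz, hz'⟩ := (h.dense_compl ℝ).inter_open_nonempty _ isOpen_ball
    ⟨0, mem_ball_self hρ⟩
  exact hz' hz

/-- **Cnv** -/
theorem tCnv (hSex : S_Sex) (hSrg : S_Srg) (hSzr : S_Szr) (hSev : S_Sev) (hCn1 : S_Cn1)
    (hCn2 : S_Cn2) (hCn3 : S_Cn3) : S_Cnv := by
  intro φ f hf h0
  obtain ⟨N, q, F, U, hφ, hU0, hFU, hF0, hF1⟩ := hCn1 φ f hf h0
  obtain ⟨ρ, g, hρ, hg, hg0, hgz⟩ := hCn2 F hF0 hF1
  obtain ⟨V, hV, hVc⟩ := hSex ρ g hg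
  have hFV : evS F V = 0 := by
    by_contra h
    refine cnv_ball hρ ((hSzr ρ (fun z => ev F z (g z)) (evS F V) hρ (hSev ρ g V hV F) h).mono ?_)
    intro z hz
    exact ⟨hz, hgz z hz⟩
  have hUV : U = V := hCn3 F U V hU0 (hVc.trans hg0) hFU hFV hF1
  subst hUV
  obtain ⟨-, -, ha, hm⟩ := hSrg ρ
  refine ⟨ρ, fun z => q.eval z + z ^ N * g z, hρ, ?_⟩
  rw [hφ]
  exact ha _ _ _ _ (cnv_poly hSrg ρ q) (hm _ _ _ _ (cnv_pow hSrg ρ N) hV)

end TNF.CV
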