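import Pool.Agent.Lib.TNF.CV.Spec

/-!
# TNF/CV/Cve: extension of automorphisms
-/

set_option autoImplicit false

open Topology Metric

noncomputable section

namespace TNF.CV

open TATE

private theorem fix_adj {p : ℕ} {s : Fin p → ℂ} {σ : ℂ ≃+* ℂ} (hσ : ∀ i, σ (s i) = s i) {x : ℂ}
    (hx : x ∈ Qs s) : σ x = x := by
  induction hx using IntermediateField.adjoin_induction with
  | mem x hx =>
    obtain ⟨i, rfl⟩ := hx
    exact hσ i
  | algebraMap x => exact map_ratCast σ x
  | add x y _ _ hx hy => rw [map_add, hx, hy]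
  | inv x _ hx => rw [map_inv₀, hx]
  | mul x y _ _ hx hy => rw [map_mul, hx, hy]

private theorem algO_map {p : ℕ} {s : Fin p → ℂ} {σ : ℂ ≃+* ℂ} (hσ : ∀ i, σ (s i) = s i) {a : ℂ}
    (ha : AlgO s a) : AlgO s (σ a) := by
  let e : ℂ →ₐ[Qs s] ℂ :=
    { σ.toRingHom with
      commutes' := fun x => fix_adj hσ x.2 }
  have h : IsAlgebraic (Qs s) a := ha
  exact h.algHom e

private def res {p : ℕ} (s : Fin p → ℂ) (σ : ℂ ≃+* ℂ) (hσ : ∀ i, σ (s i) = s i) : Ks s →+* Ks s :=
  (σ.toRingHom.comp (Ks s).subtype).codRestrict (Ks s)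
    fun x => mem_Ks.2 (algO_map hσ (mem_Ks.1 x.2))

theorem tCve : StmtCVE := by
  intro p q s w hw σ hσ
  have hcB : Countable (MvPolynomial (Fin q) (Ks s)) := by
    rw [← Cardinal.mk_le_aleph0_iff]
    refine MvPolynomial.cardinalMk_le_max_lift.trans ?_
    simp
  let u : MvPolynomial (Fin q) (Ks s) →+* ℂ := (MvPolynomial.aeval w).toRingHom
  let v : MvPolynomial (Fin q) (Ks s) →+* ℂ :=
    u.comp (MvPolynomial.map (res s σ hσ))
  have hu : Function.Injective u := hw
  have hr : Function.Injective (res s σ hσ) := (res s σ hσ).injective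
  have hv : Function.Injective v := hu.comp (MvPolynomial.map_injective _ hr)
  obtain ⟨τ, hτ⟩ := exists_aut_of_ker u v fun b => by
    rw [map_eq_zero_iff u hu, map_eq_zero_iff v hv]
  refine ⟨τ, fun a ha => ?_, fun j => ?_⟩
  · have h := hτ (MvPolynomial.C ⟨a, mem_Ks.2 ha⟩)
    have h1 : u (MvPolynomial.C ⟨a, mem_Ks.2 ha⟩) = a := MvPolynomial.aeval_C w _
    have h2 : v (MvPolynomial.C ⟨a, mem_Ks.2 ha⟩) = σ a := by
      show u (MvPolynomial.map _ (MvPolynomial.C _)) = σ a
      rw [MvPolynomial.map_C]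
      exact MvPolynomial.aeval_C w _
    rwa [h1, h2] at h
  · have h := hτ (MvPolynomial.X j)
    have h1 : u (MvPolynomial.X j) = w j := MvPolynomial.aeval_X w _
    have h2 : v (MvPolynomial.X j) = w j := by
      show u (MvPolynomial.map _ (MvPolynomial.X j)) = w j
      rw [MvPolynomial.map_X]
      exact h1
    rwa [h1, h2] at h

end TNF.CV
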