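import Pool.Agent.Lib.TNF.CV.Spec

/-!
# TNF/CV/Cvg: generic directions
-/

set_option autoImplicit false

open Topology Metric

noncomputable section

namespace TNF.CV

open TATE

/-- polynomials over a countable field form a countable set -/
private theorem countable_mvPoly {q : ℕ} (K : Type) [Field K] [Countable K] :
    Countable (MvPolynomial (Fin q) K) := by
  rw [← Cardinal.mk_le_aleph0_iff]
  refine MvPolynomial.cardinalMk_le_max_lift.trans ?_
  simp

/-- the zeros of a nonzero polynomial over a subfield of `ℂ` form a nowhere dense set -/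
private theorem nowhereDense_zeros {q : ℕ} (K : Subfield ℂ) (f : MvPolynomial (Fin q) K)
    (hf : f ≠ 0) : IsNowhereDense {s : Fin q → ℂ | MvPolynomial.aeval s f = (0 : ℂ)} := by
  have hcl : IsClosed {s : Fin q → ℂ | MvPolynomial.aeval s f = (0 : ℂ)} := by
    refine isClosed_eq ?_ continuous_const
    have he : (fun s : Fin q → ℂ => MvPolynomial.aeval s f) =
        fun s => MvPolynomial.eval s (MvPolynomial.map (algebraMap K ℂ) f) := by
      funext s
      rw [MvPolynomial.eval_map, MvPolynomial.aeval_def]
    rw [he]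
    exact MvPolynomial.continuous_eval _
  rw [hcl.isNowhereDense_iff, Set.eq_empty_iff_forall_notMem]
  intro s hs
  refine hf ?_
  have h0 := mvPoly_zero_of_open (MvPolynomial.map (algebraMap K ℂ) f) _ isOpen_interior ⟨s, hs⟩
    (fun t ht => by
      have h1 : t ∈ {s : Fin q → ℂ | MvPolynomial.aeval s f = (0 : ℂ)} := interior_subset ht
      rw [MvPolynomial.eval_map, ← MvPolynomial.aeval_def]
      exact h1)
  refine MvPolynomial.map_injective (algebraMap K ℂ) (algebraMap K ℂ).injective ?_
  rw [h0, map_zero]

theorem tCvg : StmtCVG := by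
  intro p q s
  have hc : Countable {f : MvPolynomial (Fin q) (Ks s) // f ≠ 0} := by
    have : Countable (MvPolynomial (Fin q) (Ks s)) := countable_mvPoly (Ks s)
    exact Subtype.countable
  have h : {w : Fin q → ℂ | ¬ AlgebraicIndependent (Ks s) w} ⊆
      ⋃ f : {f : MvPolynomial (Fin q) (Ks s) // f ≠ 0},
        {w | MvPolynomial.aeval w f.1 = (0 : ℂ)} := by
    intro w hw
    rw [Set.mem_ofPred_eq, algebraicIndependent_iff] at hw
    push Not at hw
    obtain ⟨f, hf, hf0⟩ := hw
    exact Set.mem_iUnion.2 ⟨⟨f, hf0⟩, hf⟩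
  exact IsMeagre.mono h (isMeagre_iUnion fun f =>
    (nowhereDense_zeros (Ks s) f.1 f.2).isMeagre)

end TNF.CV
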