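import Pool.Agent.Lib.TNF.CV.Spec

set_option autoImplicit false

open Topology Metric

noncomputable section

namespace TNF.CV

open TATE

private lemma algO_app {p q : ℕ} (s : Fin p → ℂ) (w : Fin q → ℂ) {a : ℂ} (ha : AlgO s a) :
    AlgO (Fin.append s w) a := by
  have hle : Qs s ≤ Qs (Fin.append s w) := by
    refine IntermediateField.adjoin.mono ℚ _ _ ?_
    rintro _ ⟨i, rfl⟩
    exact ⟨Fin.castAdd q i, Fin.append_left s w i⟩
  let _ : Algebra (Qs s) (Qs (Fin.append s w)) := (IntermediateField.inclusion hle).toAlgebra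
  have : IsScalarTower (Qs s) (Qs (Fin.append s w)) ℂ := IsScalarTower.of_algebraMap_eq fun _ => rfl
  have ha' : IsAlgebraic (Qs s) a := ha
  exact ha'.extendScalars (RingHom.injective (algebraMap (Qs s) (Qs (Fin.append s w))))

private lemma ks_le {p q : ℕ} (s : Fin p → ℂ) (w : Fin q → ℂ) : Ks s ≤ Ks (Fin.append s w) :=
  fun _ ha => mem_Ks.2 (algO_app s w (mem_Ks.1 ha))

/-- A relation at a transcendental parameter is a relation at the parameter one. -/
private lemma step {p : ℕ} (k K : Subfield ℂ) (hk : k ≤ K) (s w : Fin p → ℂ) (hs : ∀ i, s i ∈ K)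
    (hw : ∀ i, w i ∈ K) (z : ℂ) (hz : ¬ IsAlgebraic K z) (G : MvPolynomial (Fin p) k)
    (hG : G.eval₂ k.subtype (fun i => s i + z * w i) = 0) :
    G.eval₂ k.subtype (fun i => s i + 1 * w i) = 0 := by
  set P : Polynomial K := G.eval₂ ((Polynomial.C).comp (Subfield.inclusion hk))
    (fun i => Polynomial.C (⟨s i, hs i⟩ : K) + Polynomial.X * Polynomial.C (⟨w i, hw i⟩ : K)) with hP
  have hev : ∀ t : ℂ, P.eval₂ K.subtype t = G.eval₂ k.subtype (fun i => s i + t * w i) := by
    intro t
    have h1 := MvPolynomial.eval₂_comp_left (Polynomial.eval₂RingHom K.subtype t)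
      ((Polynomial.C).comp (Subfield.inclusion hk))
      (fun i => Polynomial.C (⟨s i, hs i⟩ : K) + Polynomial.X * Polynomial.C (⟨w i, hw i⟩ : K)) G
    rw [Polynomial.coe_eval₂RingHom] at h1
    rw [hP, h1]
    congr 1
    · ext c
      rw [RingHom.comp_apply, RingHom.comp_apply, Polynomial.coe_eval₂RingHom, Polynomial.eval₂_C]
      rfl
    · funext i
      simp
      ring
  have hP0 : P = 0 := by
    by_contra hne
    refine hz ⟨P, hne, ?_⟩
    rw [Polynomial.aeval_def]
    have := hev z
    rw [hG] at this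
    exact this
  rw [← hev 1, hP0, Polynomial.eval₂_zero]

/-- Independence of a translate over a field which contains the translation. -/
private lemma trl {p : ℕ} (k : Subfield ℂ) (s w : Fin p → ℂ) (hs : ∀ i, s i ∈ k)
    (hw : AlgebraicIndependent k w) (G : MvPolynomial (Fin p) k)
    (hG : G.eval₂ k.subtype (fun i => s i + 1 * w i) = 0) : G = 0 := by
  let T : MvPolynomial (Fin p) k →ₐ[k] MvPolynomial (Fin p) k :=
    MvPolynomial.aeval fun i => MvPolynomial.X i + MvPolynomial.C ⟨s i, hs i⟩
  let T' : MvPolynomial (Fin p) k →ₐ[k] MvPolynomial (Fin p) k :=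
    MvPolynomial.aeval fun i => MvPolynomial.X i - MvPolynomial.C ⟨s i, hs i⟩
  have h2 : T'.comp T = AlgHom.id _ _ := by
    refine MvPolynomial.algHom_ext fun i => ?_
    simp [T, T', MvPolynomial.algebraMap_eq]
  have h3 : (MvPolynomial.aeval w : MvPolynomial (Fin p) k →ₐ[k] ℂ).comp T =
      MvPolynomial.aeval (fun i => s i + 1 * w i) := by
    refine MvPolynomial.algHom_ext fun i => ?_
    have h4 : algebraMap k ℂ ⟨s i, hs i⟩ = s i := rfl
    rw [AlgHom.comp_apply, MvPolynomial.aeval_X, MvPolynomial.aeval_X, map_add, MvPolynomial.aeval_X,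
      MvPolynomial.aeval_C, h4]
    ring
  have h4 : MvPolynomial.aeval w (T G) = 0 := by
    rw [← AlgHom.comp_apply, h3]
    exact hG
  have h5 : T G = 0 := (algebraicIndependent_iff.1 hw) _ h4
  have h6 : G = T' (T G) := by
    rw [← AlgHom.comp_apply, h2]
    rfl
  rw [h6, h5, map_zero]

theorem tCvl : StmtCVL := by
  intro p s w hw
  refine ⟨{z | AlgO (Fin.append s w) z}, ?_, ?_⟩
  · exact (Algebraic.countable (Qs (Fin.append s w)) ℂ)
  intro z hz
  have hz' : ¬ AlgO (Fin.append s w) z := hz
  have hzK : ¬ IsAlgebraic (Ks (Fin.append s w)) z := fun h => hz' (algO_of_Ks _ h)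
  have key : AlgebraicIndependent (Ks s) (ln s w z) := by
    rw [algebraicIndependent_iff]
    intro G hG
    refine trl (Ks s) s w (fun i => mem_Ks.2 (algO_gen s i)) hw G ?_
    refine step (Ks s) (Ks (Fin.append s w)) (ks_le s w) s w
      (fun i => ks_le s w (mem_Ks.2 (algO_gen s i))) (fun i => ?_) z hzK G hG
    have := algO_gen (Fin.append s w) (Fin.natAdd p i)
    rw [Fin.append_right] at this
    exact mem_Ks.2 this
  refine ⟨?_, key, hz'⟩
  exact key.restrictScalars (algebraMap ℚ (Ks s)).injective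

end TNF.CV
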