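import Pool.Agent.Lib.TNF.CV.Spec

/-!
# TNF/CV: the final assembly
-/

set_option autoImplicit false

open Topology Metric

noncomputable section

namespace TNF.CV

open TATE

private theorem ball_uncountable {ρ : ℝ} (hρ : 0 < ρ) : ¬ (ball (0 : ℂ) ρ).Countable := by
  intro h
  have h1 : Dense (ball (0 : ℂ) ρ)ᶜ := h.dense_compl ℂ
  obtain ⟨x, hx, hx'⟩ := h1.inter_open_nonempty (ball (0 : ℂ) ρ) isOpen_ball
    ⟨0, mem_ball_self hρ⟩
  exact hx' hx

private theorem Ser.mono {ρ ρ' : ℝ} {g : ℂ → ℂ} {φ : PowerSeries ℂ} (h : Ser ρ g φ)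
    (hle : ρ' ≤ ρ) : Ser ρ' g φ := fun z hz => h z (ball_subset_ball hle hz)

theorem tFin (h1 : S_Sex) (h2 : S_Sdf) (h3 : S_Srg) (h4 : S_Szr) (h5 : S_Bai) (h6 : S_Cnv)
    (h7 : S_Cjg) (h8 : S_Fx) (h9 : S_Ker) : StmtCV := by
  intro q n u ρ hρ Θ hΘ D hD hal σ hσ
  have hΘi : ∀ i, DifferentiableOn ℂ (fun z => Θ z i) (ball 0 ρ) :=
    fun i => differentiableOn_pi.1 hΘ i
  choose φ hφ hφ0 using fun i => h1 ρ (fun z => Θ z i) (hΘi i)
  have hex : ∀ i, ∃ (r : ℝ) (g : ℂ → ℂ), 0 < r ∧ Ser r g (PowerSeries.map (σ : ℂ →+* ℂ) (φ i)) := by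
    intro i
    obtain ⟨f, hf, hf0, hfφ⟩ := h5 q u ρ _ (φ i) hρ (hφ i) D hD fun z hz hzD => hal z hz hzD i
    refine h6 _ f hf0 ?_
    rw [(h7 σ).1 f (φ i) fun a b => h8 q u σ hσ _ (hf a b), hfφ, map_zero]
  choose r g hr hg using hex
  obtain ⟨δ, hδall, hδ⟩ : ∃ δ : ℝ, (∀ i, δ ≤ r i) ∧ 0 < δ := by
    have hev : ∀ᶠ δ : ℝ in 𝓝[>] 0, ∀ i, δ ≤ r i := by
      rw [Filter.eventually_all]
      intro i
      filter_upwards [Ioo_mem_nhdsGT (hr i)] with x hx using hx.2.le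
    exact (hev.and self_mem_nhdsWithin).exists
  have hρ' : 0 < min ρ δ := lt_min hρ hδ
  have hser : ∀ i, Ser (min ρ δ) (g i) (PowerSeries.map (σ : ℂ →+* ℂ) (φ i)) :=
    fun i => (hg i).mono ((min_le_right _ _).trans (hδall i))
  have hserΘ : ∀ i, Ser (min ρ δ) (fun z => Θ z i) (φ i) :=
    fun i => (hφ i).mono (min_le_left _ _)
  refine ⟨min ρ δ, fun z i => g i z, hρ', min_le_left _ _, ?_, ?_, ?_, ?_⟩
  · rw [differentiableOn_pi]
    exact fun i => (h2 _ _ _ hρ' (hser i)).1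
  · intro i
    have e := (h2 _ _ _ hρ' (hser i)).2
    change g i 0 = σ (Θ 0 i)
    rw [e, ← hφ0 i, ← PowerSeries.coeff_zero_eq_constantCoeff_apply, PowerSeries.coeff_map,
      PowerSeries.coeff_zero_eq_constantCoeff_apply]
    rfl
  · intro i c hc z hz
    have hφc : φ i = PowerSeries.C c := by
      by_contra hne
      have hne' : φ i + PowerSeries.C (-c) ≠ 0 := by
        rw [map_neg, ← sub_eq_add_neg]
        exact sub_ne_zero.2 hne
      have hs := (h3 ρ).2.2.1 _ _ _ _ (hφ i) ((h3 ρ).1 (-c))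
      have hcount := h4 ρ _ _ hρ hs hne'
      refine ball_uncountable hρ (hcount.mono ?_)
      intro z hz
      refine ⟨hz, ?_⟩
      rw [hc z hz, add_neg_cancel]
    have hs1 := hser i z hz
    rw [hφc, PowerSeries.map_C] at hs1
    exact hs1.unique ((h3 (min ρ δ)).1 _ z hz)
  · exact h9 q n u (min ρ δ) hρ' (fun i z => Θ z i) (fun i z => g i z) φ σ hσ hserΘ hser

end TNF.CV
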