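import Pool.Agent.Lib.TNF.CV.Spec

/-!
# TNF/CV: an automorphism which fixes `u` fixes the field generated by `u`
-/

set_option autoImplicit false

open Topology Metric

noncomputable section

namespace TNF.CV

open TATE

theorem tFx : S_Fx := by
  intro q u σ hσ a ha
  have h1 : TATE.Qs u = IntermediateField.adjoin ℚ (Set.range u) := rfl
  rw [h1] at ha
  induction ha using IntermediateField.adjoin_induction with
  | mem x hx =>
    obtain ⟨j, rfl⟩ := hx
    exact hσ j
  | algebraMap x => exact map_ratCast σ x
  | add x y hx hy ihx ihy => rw [map_add, ihx, ihy]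
  | inv x hx ih => rw [map_inv₀, ih]
  | mul x y hx hy ihx ihy => rw [map_mul, ihx, ihy]

end TNF.CV
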