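import Pool.Agent.Lib.TNF.CV.Spec

/-!
# TNF/CV/Ker: automorphisms at generic points
-/

set_option autoImplicit false

open Topology Metric

noncomputable section

namespace TNF.CV

open TATE

private lemma ker_countable (ι : Type) [Countable ι] : Countable (MvPolynomial ι ℚ) := by
  rw [← Cardinal.mk_le_aleph0_iff]
  refine MvPolynomial.cardinalMk_le_max_lift.trans ?_
  simp

/-- the value at `z` of the polynomial `G` in the functions `F` -/
private def kv {ι : Type} (F : ι → ℂ → ℂ) (z : ℂ) : MvPolynomial ι ℚ →+* ℂ :=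
  (MvPolynomial.eval fun i => F i z).comp (MvPolynomial.map (algebraMap ℚ ℂ))

private lemma kv_X {ι : Type} (F : ι → ℂ → ℂ) (z : ℂ) (i : ι) :
    kv F z (MvPolynomial.X i) = F i z := by
  unfold kv
  rw [RingHom.comp_apply, MvPolynomial.map_X, MvPolynomial.eval_X]

private lemma ser_zero (ρ : ℝ) (g : ℂ → ℂ) (h : Ser ρ g 0) (z : ℂ) (hz : z ∈ ball (0 : ℂ) ρ) :
    g z = 0 := by
  have h1 := h z hz
  have h2 : (fun n : ℕ => PowerSeries.coeff n (0 : PowerSeries ℂ) * z ^ n) = fun _ => 0 := by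
    funext n
    rw [map_zero, zero_mul]
  rw [h2] at h1
  exact h1.unique hasSum_zero

private lemma ker_main (hz : S_Szr) {ι : Type} [Countable ι] (ρ : ℝ) (hρ : 0 < ρ)
    (F F' : ι → ℂ → ℂ) (φ φ' : MvPolynomial ι ℚ → PowerSeries ℂ)
    (h : ∀ G, Ser ρ (fun z => kv F z G) (φ G)) (h' : ∀ G, Ser ρ (fun z => kv F' z G) (φ' G))
    (h0 : ∀ G, φ G = 0 ↔ φ' G = 0) :
    ∃ E : Set ℂ, E.Countable ∧ ∀ z ∈ ball (0 : ℂ) ρ, z ∉ E →
      ∃ τ : ℂ ≃+* ℂ, ∀ i, τ (F i z) = F' i z := by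
  have hc : Countable (MvPolynomial ι ℚ) := ker_countable ι
  refine ⟨⋃ G : MvPolynomial ι ℚ, {z | φ G ≠ 0 ∧ z ∈ ball (0 : ℂ) ρ ∧
      (kv F z G = 0 ∨ kv F' z G = 0)}, ?_, ?_⟩
  · refine Set.countable_iUnion fun G => ?_
    by_cases hG : φ G = 0
    · have : {z | φ G ≠ 0 ∧ z ∈ ball (0 : ℂ) ρ ∧ (kv F z G = 0 ∨ kv F' z G = 0)} = ∅ := by
        ext z
        simp [hG]
      rw [this]
      exact Set.countable_empty
    · have c1 := hz ρ _ _ hρ (h G) hG
      have c2 := hz ρ _ _ hρ (h' G) fun hh => hG ((h0 G).2 hh)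
      refine (c1.union c2).mono ?_
      rintro z ⟨_, hzb, hh | hh⟩
      · exact Or.inl ⟨hzb, hh⟩
      · exact Or.inr ⟨hzb, hh⟩
  · intro z hzb hzE
    obtain ⟨τ, hτ⟩ := TATE.exists_aut_of_ker (kv F z) (kv F' z) fun G => by
      by_cases hG : φ G = 0
      · have e1 : kv F z G = 0 := by
          have := h G
          rw [hG] at this
          exact ser_zero ρ _ this z hzb
        have e2 : kv F' z G = 0 := by
          have := h' G
          rw [(h0 G).1 hG] at this
          exact ser_zero ρ _ this z hzb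
        rw [e1, e2]
      · have hn : ¬ (kv F z G = 0 ∨ kv F' z G = 0) := by
          intro hh
          exact hzE (Set.mem_iUnion.2 ⟨G, hG, hzb, hh⟩)
        constructor
        · intro hh
          exact absurd (Or.inl hh) hn
        · intro hh
          exact absurd (Or.inr hh) hn
    refine ⟨τ, fun i => ?_⟩
    have := hτ (MvPolynomial.X i)
    rwa [kv_X, kv_X] at this

theorem tKer (hr : S_Srg) (hz : S_Szr) (hp : S_Spo) (hj : S_Cjg) : S_Ker := by
  intro q n u ρ hρ Θ Θ' θ σ hu h h'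
  set F : Fin q ⊕ (Unit ⊕ Fin n) → ℂ → ℂ :=
    Sum.elim (fun j _ => u j) (Sum.elim (fun _ z => z) Θ) with hF
  set F' : Fin q ⊕ (Unit ⊕ Fin n) → ℂ → ℂ :=
    Sum.elim (fun j _ => u j) (Sum.elim (fun _ z => z) Θ') with hF'
  set f : Fin q ⊕ (Unit ⊕ Fin n) → PowerSeries ℂ :=
    Sum.elim (fun j => PowerSeries.C (u j)) (Sum.elim (fun _ => PowerSeries.X) θ) with hf
  have s1 : ∀ i, Ser ρ (F i) (f i) := by
    rintro (j | _ | i)
    · exact (hr ρ).1 (u j)
    · exact (hr ρ).2.1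
    · exact h i
  have s2 : ∀ i, Ser ρ (F' i) (PowerSeries.map (σ : ℂ →+* ℂ) (f i)) := by
    rintro (j | _ | i)
    · have e : PowerSeries.map (σ : ℂ →+* ℂ) (f (Sum.inl j)) = PowerSeries.C (u j) := by
        show PowerSeries.map (σ : ℂ →+* ℂ) (PowerSeries.C (u j)) = PowerSeries.C (u j)
        rw [PowerSeries.map_C]
        show PowerSeries.C (σ (u j)) = _
        rw [hu j]
      rw [e]
      exact (hr ρ).1 (u j)
    · have e : PowerSeries.map (σ : ℂ →+* ℂ) (f (Sum.inr (Sum.inl ()))) = PowerSeries.X := by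
        show PowerSeries.map (σ : ℂ →+* ℂ) PowerSeries.X = PowerSeries.X
        rw [PowerSeries.map_X]
      rw [e]
      exact (hr ρ).2.1
    · exact h' i
  obtain ⟨E, hE, hE'⟩ := ker_main hz ρ hρ F F'
    (fun G => MvPolynomial.aeval f (MvPolynomial.map (algebraMap ℚ ℂ) G))
    (fun G => PowerSeries.map (σ : ℂ →+* ℂ)
      (MvPolynomial.aeval f (MvPolynomial.map (algebraMap ℚ ℂ) G)))
    (fun G => hp _ ρ F f s1 (MvPolynomial.map (algebraMap ℚ ℂ) G))
    (fun G => by
      have e := hp _ ρ F' (fun i => PowerSeries.map (σ : ℂ →+* ℂ) (f i)) s2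
        (MvPolynomial.map (algebraMap ℚ ℂ) G)
      rw [(hj σ).2 _ G f] at e
      exact e)
    (fun G => by
      constructor
      · intro hh
        show PowerSeries.map (σ : ℂ →+* ℂ) _ = 0
        rw [hh, map_zero]
      · intro hh
        ext k
        have h1 := congrArg (PowerSeries.coeff k) hh
        rw [PowerSeries.coeff_map, map_zero] at h1
        rw [map_zero]
        exact (map_eq_zero_iff (σ : ℂ →+* ℂ) σ.injective).1 h1)
  refine ⟨E, hE, fun z hzb hzE => ?_⟩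
  obtain ⟨τ, hτ⟩ := hE' z hzb hzE
  refine ⟨τ, fun j => hτ (Sum.inl j), hτ (Sum.inr (Sum.inl ())), fun i => hτ (Sum.inr (Sum.inr i))⟩

end TNF.CV
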