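import Pool.Agent.Lib.TNF.CV.Spec

/-!
# TNF/CV, module Sdf (helper97): the sum of a power series is holomorphic
-/

set_option autoImplicit false

open Topology Metric

noncomputable section

namespace TNF.CV

open TATE

private theorem Sdf_summable (ρ : ℝ) (g : ℂ → ℂ) (φ : PowerSeries ℂ) (h : Ser ρ g φ) (r : ℝ) (hr0 : 0 ≤ r)
    (hr : r < ρ) : Summable (fun n : ℕ => ‖PowerSeries.coeff n φ‖ * r ^ n) := by
  have hmem : (r : ℂ) ∈ ball (0 : ℂ) ρ := by
    rw [mem_ball_zero_iff, Complex.norm_real, Real.norm_eq_abs, abs_of_nonneg hr0]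
    exact hr
  have h1 := (h (r : ℂ) hmem).summable.norm
  refine h1.congr (fun n => ?_)
  rw [norm_mul, norm_pow, Complex.norm_real, Real.norm_eq_abs, abs_of_nonneg hr0]

theorem tSdf : S_Sdf := by
  intro ρ g φ hρ h
  constructor
  · intro z0 hz0
    rw [mem_ball_zero_iff] at hz0
    obtain ⟨r, hr1, hr2⟩ := exists_between hz0
    have hr0 : 0 ≤ r := le_trans (norm_nonneg z0) (le_of_lt hr1)
    have hd : DifferentiableOn ℂ (fun w : ℂ => ∑' n : ℕ, PowerSeries.coeff n φ * w ^ n) (ball 0 r) := by
      apply Complex.differentiableOn_tsum_of_summable_norm (Sdf_summable ρ g φ h r hr0 hr2)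
      · intro n
        exact ((differentiable_id.pow n).const_mul _).differentiableOn
      · exact isOpen_ball
      · intro n w hw
        rw [mem_ball_zero_iff] at hw
        rw [norm_mul, norm_pow]
        exact mul_le_mul_of_nonneg_left (pow_le_pow_left₀ (norm_nonneg w) (le_of_lt hw) n) (norm_nonneg _)
    have hg : DifferentiableOn ℂ g (ball 0 r) := by
      apply hd.congr
      intro w hw
      have hw' : w ∈ ball (0 : ℂ) ρ := ball_subset_ball (le_of_lt hr2) hw
      exact (h w hw').tsum_eq.symm
    have hz1 : z0 ∈ ball (0 : ℂ) r := by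
      rw [mem_ball_zero_iff]
      exact hr1
    exact ((hg z0 hz1).differentiableAt (isOpen_ball.mem_nhds hz1)).differentiableWithinAt
  · have h0 := h 0 (mem_ball_self hρ)
    have h1 : HasSum (fun n : ℕ => PowerSeries.coeff n φ * (0 : ℂ) ^ n) (PowerSeries.constantCoeff φ) := by
      have h2 := hasSum_single (f := fun n : ℕ => PowerSeries.coeff n φ * (0 : ℂ) ^ n) 0 (by
        intro n hn
        rw [zero_pow hn, mul_zero])
      rwa [pow_zero, mul_one, PowerSeries.coeff_zero_eq_constantCoeff_apply] at h2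
    exact h0.unique h1

end TNF.CV
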