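import Pool.Agent.Lib.TNF.CV.Spec

/-!
# TNF/CV: polynomials in `z` and a convergent power series
-/

set_option autoImplicit false

open Topology Metric

noncomputable section

namespace TNF.CV

open TATE

private theorem Sev_pow (h : S_Srg) (ρ : ℝ) (g : ℂ → ℂ) (φ : PowerSeries ℂ) (hφ : Ser ρ g φ)
    (n : ℕ) : Ser ρ (fun z => g z ^ n) (φ ^ n) := by
  induction n with
  | zero => simpa using (h ρ).1 1
  | succ n ih =>
    have := (h ρ).2.2.2 _ _ _ _ ih hφ
    simpa only [pow_succ] using this

private theorem Sev_coef (h : S_Srg) (ρ : ℝ) (a : Polynomial ℂ) :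
    Ser ρ (fun z => a.eval z) (a : PowerSeries ℂ) := by
  induction a using Polynomial.induction_on' with
  | add p q hp hq =>
    have := (h ρ).2.2.1 _ _ _ _ hp hq
    simpa only [Polynomial.eval_add, Polynomial.coe_add] using this
  | monomial n c =>
    have h1 := (h ρ).2.2.2 _ _ _ _ ((h ρ).1 c) (Sev_pow h ρ _ _ (h ρ).2.1 n)
    have h2 : ((Polynomial.monomial n c : Polynomial ℂ) : PowerSeries ℂ) =
        PowerSeries.C c * PowerSeries.X ^ n := by
      rw [← Polynomial.C_mul_X_pow_eq_monomial, Polynomial.coe_mul, Polynomial.coe_C,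
        Polynomial.coe_pow, Polynomial.coe_X]
    rw [h2]
    simpa only [Polynomial.eval_monomial] using h1

theorem tSev (h : S_Srg) : S_Sev := by
  intro ρ g φ hφ f
  induction f using Polynomial.induction_on' with
  | add p q hp hq =>
    have := (h ρ).2.2.1 _ _ _ _ hp hq
    simpa only [ev, evS, Polynomial.eval₂_add] using this
  | monomial n a =>
    have := (h ρ).2.2.2 _ _ _ _ (Sev_coef h ρ a) (Sev_pow h ρ g φ hφ n)
    simpa only [ev, evS, Polynomial.eval₂_monomial, Polynomial.coe_evalRingHom,
      Polynomial.coeToPowerSeries.ringHom_apply] using this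

end TNF.CV
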