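import Pool.Agent.Lib.TNF.CV.Spec

/-!
# TNF/CV: Taylor series of a holomorphic function on a disc (`S_Sex`)
-/

set_option autoImplicit false

open Topology Metric

noncomputable section

namespace TNF.CV

open TATE

theorem tSex : S_Sex := by
  intro ρ g hg
  refine ⟨PowerSeries.mk fun n => ((n.factorial : ℂ)⁻¹ * iteratedDeriv n g 0), ?_, ?_⟩
  · intro z hz
    have h1 := Complex.hasSum_taylorSeries_on_ball hg hz
    have h2 : (fun n : ℕ => PowerSeries.coeff n
        (PowerSeries.mk fun n => ((n.factorial : ℂ)⁻¹ * iteratedDeriv n g 0)) * z ^ n) =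
        fun n : ℕ => (n.factorial : ℂ)⁻¹ • (z - 0) ^ n • iteratedDeriv n g 0 := by
      funext n
      rw [PowerSeries.coeff_mk, smul_eq_mul, smul_eq_mul, sub_zero]
      ring
    rw [h2]
    exact h1
  · rw [← PowerSeries.coeff_zero_eq_constantCoeff_apply, PowerSeries.coeff_mk]
    simp

end TNF.CV
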