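import Pool.Agent.Lib.TNF.CV.Spec

/-!
# TNF/CV, module Spo: polynomials in convergent power series (several variables)
-/

set_option autoImplicit false

open Topology Metric

noncomputable section

namespace TNF.CV

open TATE

/-- **Spo**: polynomials in convergent power series. -/
theorem tSpo (hSrg : S_Srg) : S_Spo := by
  intro ι ρ Θ θ hθ G
  obtain ⟨hC, -, hadd, hmul⟩ := hSrg ρ
  induction G using MvPolynomial.induction_on with
  | C a =>
    simp only [MvPolynomial.eval_C, MvPolynomial.aeval_C]
    exact hC a
  | add p q hp hq =>
    simp only [map_add]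
    exact hadd _ _ _ _ hp hq
  | mul_X p i hp =>
    simp only [map_mul, MvPolynomial.eval_X, MvPolynomial.aeval_X]
    exact hmul _ _ _ _ hp (hθ i)

end TNF.CV
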