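import Pool.Agent.Lib.TNF.CV.Spec

/-!
# Sums and products of convergent power series

Proof of `S_Srg`.
-/

set_option autoImplicit false

open Topology Metric

noncomputable section

namespace TNF.CV

open TATE

private theorem srg_C (ρ : ℝ) (c : ℂ) : Ser ρ (fun _ => c) (PowerSeries.C c) := by
  intro z _
  have h := hasSum_single (f := fun n : ℕ => PowerSeries.coeff n (PowerSeries.C c) * z ^ n) 0
    (fun n hn => by
      show PowerSeries.coeff n (PowerSeries.C c) * z ^ n = 0
      rw [PowerSeries.coeff_C, if_neg hn, zero_mul])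
  have h0 : PowerSeries.coeff 0 (PowerSeries.C c) * z ^ 0 = c := by
    rw [PowerSeries.coeff_C, if_pos rfl, pow_zero, mul_one]
  rw [h0] at h
  exact h

private theorem srg_X (ρ : ℝ) : Ser ρ (fun z => z) PowerSeries.X := by
  intro z _
  have h := hasSum_single (f := fun n : ℕ => PowerSeries.coeff n (PowerSeries.X : PowerSeries ℂ) * z ^ n) 1
    (fun n hn => by
      show PowerSeries.coeff n (PowerSeries.X : PowerSeries ℂ) * z ^ n = 0
      rw [PowerSeries.coeff_X, if_neg hn, zero_mul])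
  have h0 : PowerSeries.coeff 1 (PowerSeries.X : PowerSeries ℂ) * z ^ 1 = z := by
    rw [PowerSeries.coeff_X, if_pos rfl, pow_one, one_mul]
  rw [h0] at h
  exact h

private theorem srg_add (ρ : ℝ) (g h : ℂ → ℂ) (φ ψ : PowerSeries ℂ) (hg : Ser ρ g φ)
    (hh : Ser ρ h ψ) : Ser ρ (fun z => g z + h z) (φ + ψ) := by
  intro z hz
  have h1 := (hg z hz).add (hh z hz)
  have e : (fun n : ℕ => PowerSeries.coeff n (φ + ψ) * z ^ n) =
      fun n : ℕ => PowerSeries.coeff n φ * z ^ n + PowerSeries.coeff n ψ * z ^ n := by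
    funext n
    rw [map_add, add_mul]
  show HasSum (fun n : ℕ => PowerSeries.coeff n (φ + ψ) * z ^ n) (g z + h z)
  rw [e]
  exact h1

private theorem srg_mul (ρ : ℝ) (g h : ℂ → ℂ) (φ ψ : PowerSeries ℂ) (hg : Ser ρ g φ)
    (hh : Ser ρ h ψ) : Ser ρ (fun z => g z * h z) (φ * ψ) := by
  intro z hz
  have h1 := hg z hz
  have h2 := hh z hz
  have n1 : Summable fun n : ℕ => ‖PowerSeries.coeff n φ * z ^ n‖ := h1.summable.norm
  have n2 : Summable fun n : ℕ => ‖PowerSeries.coeff n ψ * z ^ n‖ := h2.summable.norm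
  have e : (fun n : ℕ => PowerSeries.coeff n (φ * ψ) * z ^ n) =
      fun n : ℕ => ∑ kl ∈ Finset.HasAntidiagonal.antidiagonal n,
        (PowerSeries.coeff kl.1 φ * z ^ kl.1) * (PowerSeries.coeff kl.2 ψ * z ^ kl.2) := by
    funext n
    rw [PowerSeries.coeff_mul, Finset.sum_mul]
    refine Finset.sum_congr rfl fun p hp => ?_
    rw [← Finset.HasAntidiagonal.mem_antidiagonal.1 hp, pow_add]
    ring
  show HasSum (fun n : ℕ => PowerSeries.coeff n (φ * ψ) * z ^ n) (g z * h z)
  rw [e]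
  have hs := (summable_norm_sum_mul_antidiagonal_of_summable_norm n1 n2).of_norm.hasSum
  rw [← tsum_mul_tsum_eq_tsum_sum_antidiagonal_of_summable_norm n1 n2, h1.tsum_eq,
    h2.tsum_eq] at hs
  exact hs

theorem tSrg : S_Srg :=
  fun ρ => ⟨srg_C ρ, srg_X ρ, srg_add ρ, srg_mul ρ⟩

end TNF.CV
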