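import Pool.Agent.Lib.TNF.CV.Spec

/-!
# TNF/CV/Szr: the zeros of a nonzero convergent power series form a countable set
-/

set_option autoImplicit false

open Topology Metric

noncomputable section

namespace TNF.CV

open TATE

/-- uniqueness: the sum zero has only the series zero -/
private lemma Szr_uniq (h : S_Sdf) (ρ : ℝ) (g : ℂ → ℂ) (φ : PowerSeries ℂ) (hρ : 0 < ρ)
    (hS : Ser ρ g φ) (hall : Set.EqOn g 0 (ball 0 ρ)) : φ = 0 := by
  classical
  by_contra hφ
  have hex : ∃ n, PowerSeries.coeff n φ ≠ 0 := by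
    by_contra hcon
    push Not at hcon
    exact hφ (PowerSeries.ext fun n => by rw [hcon n, map_zero])
  obtain ⟨k, hk, hmin⟩ : ∃ k, PowerSeries.coeff k φ ≠ 0 ∧
      ∀ n < k, PowerSeries.coeff n φ = 0 :=
    ⟨Nat.find hex, Nat.find_spec hex, fun n hn => not_not.mp (Nat.find_min hex hn)⟩
  -- the shifted series
  have hSer : Ser ρ (fun z => if z = 0 then PowerSeries.coeff k φ else 0)
      (PowerSeries.mk fun n => PowerSeries.coeff (n + k) φ) := by
    intro z hz
    by_cases hz0 : z = 0
    · subst hz0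
      simp only [if_true]
      have h1 : PowerSeries.coeff k φ = PowerSeries.coeff 0
          (PowerSeries.mk fun n => PowerSeries.coeff (n + k) φ) * (0 : ℂ) ^ 0 := by
        rw [PowerSeries.coeff_mk, zero_add, pow_zero, mul_one]
      rw [h1]
      refine hasSum_single 0 (fun n hn => ?_)
      rw [zero_pow hn, mul_zero]
    · simp only [if_neg hz0]
      have h1 := hS z hz
      rw [hall hz, Pi.zero_apply] at h1
      have h2 : HasSum (fun n : ℕ => PowerSeries.coeff (n + k) φ * z ^ (n + k)) 0 := by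
        rw [hasSum_nat_add_iff (f := fun n : ℕ => PowerSeries.coeff n φ * z ^ n) k]
        have h3 : ∑ i ∈ Finset.range k, PowerSeries.coeff i φ * z ^ i = 0 :=
          Finset.sum_eq_zero fun i hi => by rw [hmin i (Finset.mem_range.mp hi), zero_mul]
        rw [h3, add_zero]
        exact h1
      have h4 := h2.mul_right ((z ^ k)⁻¹)
      rw [zero_mul] at h4
      have e : (fun n : ℕ => PowerSeries.coeff n
          (PowerSeries.mk fun n => PowerSeries.coeff (n + k) φ) * z ^ n) =
          fun n : ℕ => PowerSeries.coeff (n + k) φ * z ^ (n + k) * (z ^ k)⁻¹ := by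
        funext n
        have hzk : z ^ k ≠ 0 := pow_ne_zero k hz0
        rw [PowerSeries.coeff_mk, pow_add, mul_assoc, mul_assoc, mul_inv_cancel₀ hzk, mul_one]
      rw [e]
      exact h4
  obtain ⟨hd, -⟩ := h ρ _ _ hρ hSer
  have h0 : (0 : ℂ) ∈ ball (0 : ℂ) ρ := mem_ball_self hρ
  have hc : ContinuousAt (fun z : ℂ => if z = 0 then PowerSeries.coeff k φ else 0) 0 :=
    (hd.differentiableAt (isOpen_ball.mem_nhds h0)).continuousAt
  have h1 : Filter.Tendsto (fun z : ℂ => if z = 0 then PowerSeries.coeff k φ else 0)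
      (𝓝[≠] 0) (𝓝 (PowerSeries.coeff k φ)) := by
    have h2 := hc.tendsto
    simp only [if_true] at h2
    exact h2.mono_left nhdsWithin_le_nhds
  have h2 : Filter.Tendsto (fun z : ℂ => if z = 0 then PowerSeries.coeff k φ else 0)
      (𝓝[≠] 0) (𝓝 0) := by
    refine Filter.Tendsto.congr' ?_ tendsto_const_nhds
    filter_upwards [self_mem_nhdsWithin] with z hz
    have hz' : z ≠ 0 := hz
    rw [if_neg hz']
  exact hk (tendsto_nhds_unique h1 h2)

theorem tSzr (h : S_Sdf) : S_Szr := by
  intro ρ g φ hρ hS hφ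
  have hd := (h ρ g φ hρ hS).1
  have han : AnalyticOnNhd ℂ g (ball 0 ρ) := hd.analyticOnNhd isOpen_ball
  have hpre : IsPreconnected (ball (0 : ℂ) ρ) := (convex_ball 0 ρ).isPreconnected
  by_cases hall : Set.EqOn g 0 (ball 0 ρ)
  · exact absurd (Szr_uniq h ρ g φ hρ hS hall) hφ
  · have hx : ∀ x ∈ {z ∈ ball (0 : ℂ) ρ | g z = 0},
        ({x} : Set ℂ) ∈ 𝓝[{z ∈ ball (0 : ℂ) ρ | g z = 0}] x := by
      intro x hx
      have h1 : ∀ᶠ z in 𝓝[≠] x, g z ≠ 0 := by
        by_contra hcon
        rw [Filter.not_eventually] at hcon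
        exact hall (han.eqOn_zero_of_preconnected_of_frequently_eq_zero hpre hx.1
          (hcon.mono fun z hz => not_not.mp hz))
      rw [eventually_nhdsWithin_iff] at h1
      rw [mem_nhdsWithin_iff_eventually]
      filter_upwards [h1] with z hz hzs
      by_contra hne
      exact hz hne hzs.2
    obtain ⟨t, -, htc, hcov⟩ := TopologicalSpace.countable_cover_nhdsWithin hx
    refine htc.mono (fun z hz => ?_)
    obtain ⟨y, hy, hzy⟩ := Set.mem_iUnion₂.mp (hcov hz)
    rw [Set.mem_singleton_iff] at hzy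
    rwa [hzy]

end TNF.CV
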