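import Pool.Agent.Lib.TNF.Iface2
import Pool.Agent.Lib.TNF.CV.Fin
import Pool.Agent.Lib.TNF.CV.Sex
import Pool.Agent.Lib.TNF.CV.Sdf
import Pool.Agent.Lib.TNF.CV.Srg
import Pool.Agent.Lib.TNF.CV.Szr
import Pool.Agent.Lib.TNF.CV.Spo
import Pool.Agent.Lib.TNF.CV.Sev
import Pool.Agent.Lib.TNF.CV.Al1
import Pool.Agent.Lib.TNF.CV.Al2
import Pool.Agent.Lib.TNF.CV.Bai
import Pool.Agent.Lib.TNF.CV.Cn1
import Pool.Agent.Lib.TNF.CV.Cn2
import Pool.Agent.Lib.TNF.CV.Cn3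
import Pool.Agent.Lib.TNF.CV.Cnv
import Pool.Agent.Lib.TNF.CV.Cjg
import Pool.Agent.Lib.TNF.CV.Fx
import Pool.Agent.Lib.TNF.CV.Ker
import Pool.Agent.Lib.TNF.CV.Cve
import Pool.Agent.Lib.TNF.CV.Cvg
import Pool.Agent.Lib.TNF.CV.Cvl

/-!
# TNF/CV: all modules together (helper7)

`TNF.tCV : TNF.StmtCV` (Iface2, section 8), and the stronger `TNF.CV.cCV`, with `cCVE`, `cCVG`, `cCVL`.
-/

set_option autoImplicit false

open Topology Metric

noncomputable section

namespace TNF.CV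

theorem cSrg : S_Srg := tSrg
theorem cSex : S_Sex := tSex
theorem cSdf : S_Sdf := tSdf
theorem cSzr : S_Szr := tSzr cSdf
theorem cSpo : S_Spo := tSpo cSrg
theorem cSev : S_Sev := tSev cSrg
theorem cBai : S_Bai := tBai cSev cSzr tAl1 tAl2
theorem cCnv : S_Cnv := tCnv cSex cSrg cSzr cSev tCn1 tCn2 tCn3
theorem cKer : S_Ker := tKer cSrg cSzr cSpo tCjg

/-- **CV**. -/
theorem cCV : StmtCV := tFin cSex cSdf cSrg cSzr cBai cCnv tCjg tFx cKer

theorem cCVE : StmtCVE := tCve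
theorem cCVG : StmtCVG := tCvg
theorem cCVL : StmtCVL := tCvl

end TNF.CV

namespace TNF

/-- A countable set of complex numbers is meagre. -/
private theorem meagre_of_countable {E : Set ℂ} (h : E.Countable) : IsMeagre E := by
  have : E = ⋃ x ∈ E, {x} := by simp
  rw [this]
  exact isMeagre_biUnion h fun x _ => IsNowhereDense.isMeagre (by
    rw [IsNowhereDense, closure_singleton]
    exact interior_singleton x)

/-- **CV** in the form of `Iface2`. -/
theorem tCV : StmtCV := by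
  intro q K u ε hε Θ hΘ Y hY hal σ hσ
  obtain ⟨ρ', Θ', h1, h2, h3, h4, -, E, hE, h5⟩ := CV.cCV q K u ε hε Θ hΘ Y hY hal σ hσ
  exact ⟨ρ', h1, h2, Θ', E, meagre_of_countable hE, h3, h4, h5⟩

end TNF
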