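import Pool.Agent.Lib.TNF.CV.Spec

/-! # Uniqueness of the simple root in the ring of power series -/

set_option autoImplicit false

open Topology Metric

noncomputable section

namespace TNF.CV

open TATE

private theorem cn3_const : (PowerSeries.constantCoeff (R := ℂ)).comp
    (Polynomial.coeToPowerSeries.ringHom : Polynomial ℂ →+* PowerSeries ℂ) =
    Polynomial.evalRingHom 0 := by
  refine RingHom.ext fun p => ?_
  rw [RingHom.comp_apply, Polynomial.coe_evalRingHom, Polynomial.coeToPowerSeries.ringHom_apply,
    ← PowerSeries.coeff_zero_eq_constantCoeff_apply, Polynomial.coeff_coe,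
    Polynomial.coeff_zero_eq_eval_zero]

theorem tCn3 : S_Cn3 := by
  intro F U V hU hV hFU hFV hd
  let P : Polynomial (PowerSeries ℂ) := F.map Polynomial.coeToPowerSeries.ringHom
  have h1 : P.eval U = 0 := by
    rw [Polynomial.eval_map]
    exact hFU
  have h2 : P.eval V = 0 := by
    rw [Polynomial.eval_map]
    exact hFV
  obtain ⟨k, hk⟩ := Polynomial.binomExpansion P V (U - V)
  rw [add_sub_cancel, h1, h2, zero_add] at hk
  have h3 : (U - V) * ((Polynomial.derivative P).eval V + k * (U - V)) = 0 := by
    rw [hk]
    ring
  rcases mul_eq_zero.1 h3 with h | h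
  · exact sub_eq_zero.1 h
  · exfalso
    apply hd
    have h4 := congrArg (PowerSeries.constantCoeff (R := ℂ)) h
    rw [map_add, map_mul, map_sub, hU, hV, sub_zero, mul_zero, add_zero, map_zero,
      Polynomial.derivative_map, Polynomial.eval_map, Polynomial.hom_eval₂, cn3_const, hV] at h4
    exact h4

end TNF.CV
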