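import Pool.Agent.Lib.TATE.GA.Main

/-!
# TNF/CV: algebraic power series, conjugation, fields (helper7)

Note 4967 (2.5). Holomorphic functions `Θ` on a disc whose values are algebraic over `ℚ(u, z)` have
convergent conjugates `Θ'`: for `z` outside a countable set some automorphism fixing `u`, `z` maps `Θ z`
to `Θ' z`, and `Θ' 0 = σ (Θ 0)`. Every statement `S_Xyz` has its proof in the docstring; the module
`TNF/CV/Xyz.lean` proves `theorem tXyz : S_Xyz` (or with the hypotheses named in the docstring).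
-/

set_option autoImplicit false

open Topology Metric

noncomputable section

namespace TNF.CV

open TATE

/-! ## 0. Definitions -/

/-- The power series `φ` converges to `g` on the disc of radius `ρ`. -/
def Ser (ρ : ℝ) (g : ℂ → ℂ) (φ : PowerSeries ℂ) : Prop :=
  ∀ z ∈ ball (0 : ℂ) ρ, HasSum (fun n : ℕ => PowerSeries.coeff n φ * z ^ n) (g z)

/-- The value `f (z, x)`; `f` is a polynomial in `X` whose coefficients are polynomials in `Z`. -/
def ev (f : Polynomial (Polynomial ℂ)) (z x : ℂ) : ℂ :=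
  f.eval₂ (Polynomial.evalRingHom z) x

/-- The value `f (Z, φ)`, a formal power series. -/
def evS (f : Polynomial (Polynomial ℂ)) (φ : PowerSeries ℂ) : PowerSeries ℂ :=
  f.eval₂ Polynomial.coeToPowerSeries.ringHom φ

/-- The polynomials in `Z`, `X` with coefficients in `ℚ(u)`. -/
def Kf {q : ℕ} (u : Fin q → ℂ) : Set (Polynomial (Polynomial ℂ)) :=
  {f | ∀ i j, (f.coeff i).coeff j ∈ TATE.Qs u}

/-! ## 1. The result -/

/-- **CV**: CONJUGATES OF ALGEBRAIC FUNCTIONS. `Θ` holomorphic on `|z| < ρ` with values algebraic over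
`ℚ(u, z)` for `z` outside a meagre set `D`, `σ` an automorphism of `ℂ` which fixes `u`. Then there is
`Θ'`, holomorphic on `|z| < ρ'`, with `Θ' 0 = σ (Θ 0)`, such that for all `z` outside a countable set
some automorphism `τ` fixes `u` and `z` and maps `Θ z` to `Θ' z`. A constant component `c` becomes the
constant `σ c`. -/
def StmtCV : Prop :=
  ∀ (q n : ℕ) (u : Fin q → ℂ) (ρ : ℝ), 0 < ρ → ∀ Θ : ℂ → (Fin n → ℂ),
    DifferentiableOn ℂ Θ (ball 0 ρ) → ∀ D : Set ℂ, IsMeagre D →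
    (∀ z ∈ ball (0 : ℂ) ρ, z ∉ D → ∀ i, AlgO (Fin.snoc u z : Fin (q + 1) → ℂ) (Θ z i)) →
    ∀ σ : ℂ ≃+* ℂ, (∀ j, σ (u j) = u j) →
    ∃ (ρ' : ℝ) (Θ' : ℂ → (Fin n → ℂ)), 0 < ρ' ∧ ρ' ≤ ρ ∧ DifferentiableOn ℂ Θ' (ball 0 ρ') ∧
      (∀ i, Θ' 0 i = σ (Θ 0 i)) ∧
      (∀ i c, (∀ z ∈ ball (0 : ℂ) ρ, Θ z i = c) → ∀ z ∈ ball (0 : ℂ) ρ', Θ' z i = σ c) ∧
      ∃ E : Set ℂ, E.Countable ∧ ∀ z ∈ ball (0 : ℂ) ρ', z ∉ E →
        ∃ τ : ℂ ≃+* ℂ, (∀ j, τ (u j) = u j) ∧ τ z = z ∧ ∀ i, τ (Θ z i) = Θ' z i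

/-- **CVE**: EXTENSION OF AUTOMORPHISMS. `w` algebraically independent over the algebraic closure `Ks s`
of `ℚ(s)`: an automorphism which fixes `s` can be changed outside of `Ks s` such that it fixes `w`. -/
def StmtCVE : Prop :=
  ∀ (p q : ℕ) (s : Fin p → ℂ) (w : Fin q → ℂ), AlgebraicIndependent (Ks s) w →
    ∀ σ : ℂ ≃+* ℂ, (∀ i, σ (s i) = s i) →
    ∃ τ : ℂ ≃+* ℂ, (∀ a, AlgO s a → τ a = σ a) ∧ ∀ j, τ (w j) = w j

/-- **CVG**: GENERIC DIRECTIONS. Outside a meagre set `w` is algebraically independent over `Ks s`. -/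
def StmtCVG : Prop :=
  ∀ (p q : ℕ) (s : Fin p → ℂ), IsMeagre {w : Fin q → ℂ | ¬ AlgebraicIndependent (Ks s) w}

/-- **CVL**: GENERIC POINTS OF THE LINE `s + z w`, `w` algebraically independent over `Ks s`: outside a
countable set of `z` the point is algebraically independent over `ℚ` (even over `Ks s`), and `z` is
transcendental over `ℚ(s, w)`. -/
def StmtCVL : Prop :=
  ∀ (p : ℕ) (s w : Fin p → ℂ), AlgebraicIndependent (Ks s) w →
    ∃ E : Set ℂ, E.Countable ∧ ∀ z ∉ E, AlgebraicIndependent ℚ (ln s w z) ∧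
      AlgebraicIndependent (Ks s) (ln s w z) ∧ ¬ AlgO (Fin.append s w) z

/-! ## 2. Convergent power series -/

/-- **Sex**. PROOF. `Complex.hasSum_taylorSeries_on_ball` (`φ` = the series with the coefficients
`iteratedDeriv n g 0 / n!`); for `ρ ≤ 0` take the constant series `g 0`. -/
def S_Sex : Prop :=
  ∀ (ρ : ℝ) (g : ℂ → ℂ), DifferentiableOn ℂ g (ball 0 ρ) →
    ∃ φ, Ser ρ g φ ∧ PowerSeries.constantCoeff φ = g 0

/-- **Sdf**. PROOF. `g` is the sum of a power series with radius of convergence at least `ρ`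
(`FormalMultilinearSeries.ofScalars` or `HasFPowerSeriesOnBall`; or: locally uniform limit of
polynomials, `summable_of_norm...`, Abel's lemma), hence analytic on the disc; at `z = 0` the sum has
only the term `n = 0` (`hasSum_single`, uniqueness of sums). -/
def S_Sdf : Prop :=
  ∀ (ρ : ℝ) (g : ℂ → ℂ) (φ : PowerSeries ℂ), 0 < ρ → Ser ρ g φ →
    DifferentiableOn ℂ g (ball 0 ρ) ∧ g 0 = PowerSeries.constantCoeff φ

/-- **Srg**. PROOF. Constants and `z`: finite sums. Sums: `HasSum.add`. Products: the series converge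
absolutely on the disc (a series convergent at `z₁`, `|z| < |z₁| < ρ`, converges absolutely at `z`; or
`Summable.norm` since `ℂ` is finite dimensional: `summable_norm_iff`), Cauchy product
`tsum_mul_tsum_eq_tsum_sum_antidiagonal_of_summable_norm`, `PowerSeries.coeff_mul`. -/
def S_Srg : Prop :=
  ∀ ρ : ℝ, (∀ c : ℂ, Ser ρ (fun _ => c) (PowerSeries.C c)) ∧ Ser ρ (fun z => z) PowerSeries.X ∧
    (∀ g h φ ψ, Ser ρ g φ → Ser ρ h ψ → Ser ρ (fun z => g z + h z) (φ + ψ)) ∧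
    ∀ g h φ ψ, Ser ρ g φ → Ser ρ h ψ → Ser ρ (fun z => g z * h z) (φ * ψ)

/-- **Szr**. PROOF. (module hypothesis: `S_Sdf`) `g` is analytic on the connected open disc. If the set
of its zeros is not countable it has an accumulation point in the disc (a subset of the disc without
accumulation point in it is discrete and closed in it, so countable: second countable space), so `g = 0`
on the disc (`AnalyticOnNhd.eqOn_zero_of_preconnected_of_frequently_eq_zero`), and then all coefficients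
of `φ` are `0`: uniqueness of power series (`HasFPowerSeriesAt.eq_zero`, or by induction: `φ = Z^k ψ`,
`ψ(0) ≠ 0`, `Ser ρ (g / z^k) ψ` away from `0`, continuity). -/
def S_Szr : Prop :=
  ∀ (ρ : ℝ) (g : ℂ → ℂ) (φ : PowerSeries ℂ), 0 < ρ → Ser ρ g φ → φ ≠ 0 →
    {z ∈ ball (0 : ℂ) ρ | g z = 0}.Countable

/-- **Spo**. PROOF. (module hypothesis: `S_Srg`) `MvPolynomial.induction_on`. -/
def S_Spo : Prop :=
  ∀ (ι : Type) (ρ : ℝ) (Θ : ι → ℂ → ℂ) (θ : ι → PowerSeries ℂ), (∀ i, Ser ρ (Θ i) (θ i)) →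
    ∀ G : MvPolynomial ι ℂ,
      Ser ρ (fun z => MvPolynomial.eval (fun i => Θ i z) G) (MvPolynomial.aeval θ G)

/-- **Sev**. PROOF. (module hypothesis: `S_Srg`) `Polynomial.induction_on'` for `f`, and for its
coefficients (`Ser ρ (fun z => a.eval z) (a : PowerSeries ℂ)` for `a` a polynomial in `Z`). -/
def S_Sev : Prop :=
  ∀ (ρ : ℝ) (g : ℂ → ℂ) (φ : PowerSeries ℂ), Ser ρ g φ → ∀ f : Polynomial (Polynomial ℂ),
    Ser ρ (fun z => ev f z (g z)) (evS f φ)

/-! ## 3. Algebraic values -/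

/-- **Al1**. PROOF. Algebraic over the field `ℚ(u, z)` means algebraic over the ring
`ℚ(u)[z]` (its fraction field in `ℂ` is `ℚ(u, z)`; compare `TATE.algO_poly`): a nonzero polynomial
`g` over `ℚ(u)[z] = Algebra.adjoin (Qs u) {z}` with `g(a) = 0`; every coefficient is `P_i(z)` with
`P_i ∈ ℚ(u)[Z]`; take `P_i = 0` where the coefficient is `0`; `f = ∑ P_i X^i`. -/
def S_Al1 : Prop :=
  ∀ (q : ℕ) (u : Fin q → ℂ) (z a : ℂ), AlgO (Fin.snoc u z : Fin (q + 1) → ℂ) a →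
    ∃ f ∈ Kf u, f ≠ 0 ∧ ev f z a = 0

/-- **Al2**. PROOF. `Kf u` is the image of the countable ring `Polynomial (Polynomial (Qs u))`
(`TATE.Qs_countable`, `Polynomial.cardinalMk_le_max`) under the map of coefficients. -/
def S_Al2 : Prop := ∀ (q : ℕ) (u : Fin q → ℂ), (Kf u).Countable

/-- **Bai**. PROOF. (module hypotheses: `S_Sex`, `S_Sev`, `S_Szr`, `S_Al1`, `S_Al2`) Let `φ` be the
series of `g`. If `evS f φ = 0` for some `0 ≠ f ∈ Kf u` we are done (`Sev`: the sum of the zero series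
is `0`). Otherwise every set `{z ∈ ball 0 ρ | ev f z (g z) = 0}`, `0 ≠ f ∈ Kf u`, is countable (`Sev`,
`Szr`), so by `Al1`, `Al2` the disc is contained in the union of `D` and a countable set, which is
meagre: contradiction to Baire (`IsMeagre`: `not_isMeagre_of_isOpen`; countable sets are meagre in
`ℂ`: points are nowhere dense). -/
def S_Bai : Prop :=
  ∀ (q : ℕ) (u : Fin q → ℂ) (ρ : ℝ) (g : ℂ → ℂ) (φ : PowerSeries ℂ), 0 < ρ → Ser ρ g φ →
    ∀ D : Set ℂ, IsMeagre D →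
    (∀ z ∈ ball (0 : ℂ) ρ, z ∉ D → AlgO (Fin.snoc u z : Fin (q + 1) → ℂ) (g z)) →
    ∃ f ∈ Kf u, f ≠ 0 ∧ evS f φ = 0

/-! ## 4. Algebraic power series converge -/

/-- **Cn1**. PROOF (algebra). Among the `f ≠ 0` with `evS f φ = 0` take one of minimal degree in `X`.
The degree is `≥ 1` (`f = C a` gives `a = 0` as a power series), so `f' = derivative f ≠ 0` has smaller
degree, `evS f' φ ≠ 0`; let `e` be its order. `q = trunc (2e+1) φ`, `φ = q + Z^(2e+1) ψ`,
`U = Z^(e+1) ψ`, `N = e`. `T = Polynomial.taylor q f` (coefficients: `T_0 = f(q)`, `T_1 = f'(q)`),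
`G = T.comp (C (Z^e) * X)`, `G_j = T_j Z^(e j)` (`Polynomial.comp_C_mul_X_coeff`); `evS G U =
evS f (q + Z^e U) = 0`. Now `Z^(2e+1)` divides `f(q)` (it divides `evS f φ - evS f q` as a power series:
`Polynomial.evalSubFactor`; a power series divisible by `Z^k` which is a polynomial is divisible by `Z^k`
in `ℂ[Z]`), and `f'(q) = evS f' φ` modulo `Z^(2e+1)`, so `f'(q) = Z^e a`, `a(0) ≠ 0`. Hence `Z^(2e)`
divides all `G_j`: `G = C (Z^(2e)) * F` (`Polynomial.C_dvd_iff_dvd_coeff`), `evS F U = 0` (domain),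
`F_0(0) = 0`, `F_1(0) = a(0) ≠ 0`. -/
def S_Cn1 : Prop :=
  ∀ (φ : PowerSeries ℂ) (f : Polynomial (Polynomial ℂ)), f ≠ 0 → evS f φ = 0 →
    ∃ (N : ℕ) (q : Polynomial ℂ) (F : Polynomial (Polynomial ℂ)) (U : PowerSeries ℂ),
      φ = (q : PowerSeries ℂ) + PowerSeries.X ^ N * U ∧ PowerSeries.constantCoeff U = 0 ∧
      evS F U = 0 ∧ ev F 0 0 = 0 ∧ ev (Polynomial.derivative F) 0 0 ≠ 0

/-- **Cn2**. PROOF (implicit function theorem). Copy of `TATE.simple_root` (TATE/GA/Rt.lean) for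
`F(z, x)`: the map `(z, x) ↦ ev F z x` is `ContDiff ℂ ⊤`, its derivative in `x` is
`ev (derivative F) z x`. -/
def S_Cn2 : Prop :=
  ∀ F : Polynomial (Polynomial ℂ), ev F 0 0 = 0 → ev (Polynomial.derivative F) 0 0 ≠ 0 →
    ∃ (ρ : ℝ) (g : ℂ → ℂ), 0 < ρ ∧ DifferentiableOn ℂ g (ball 0 ρ) ∧ g 0 = 0 ∧
      ∀ z ∈ ball (0 : ℂ) ρ, ev F z (g z) = 0

/-- **Cn3**. PROOF (algebra). `Polynomial.binomExpansion` for `F` mapped to `(PowerSeries ℂ)[X]` at
`V`, `y = U - V`: `0 = evS F U = evS F V + evS F' V * y + k y^2 = y (evS F' V + k y)`; the constant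
coefficient of the second factor is `ev F' 0 0 ≠ 0`, so `y = 0` (domain). -/
def S_Cn3 : Prop :=
  ∀ (F : Polynomial (Polynomial ℂ)) (U V : PowerSeries ℂ), PowerSeries.constantCoeff U = 0 →
    PowerSeries.constantCoeff V = 0 → evS F U = 0 → evS F V = 0 →
    ev (Polynomial.derivative F) 0 0 ≠ 0 → U = V

/-- **Cnv**. PROOF. (module hypotheses: `S_Sex`, `S_Sdf`, `S_Srg`, `S_Szr`, `S_Sev`, `S_Cn1`, `S_Cn2`,
`S_Cn3`) `Cn1`, `Cn2`: `g`; `Sex`: its series `V`; `Sev`, `Szr` (the zero set of `ev F z (g z)` is the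
disc, not countable): `evS F V = 0`; `Cn3`: `V = U`; `Srg`: `q(z) + z^N g(z)` has the series `φ`. -/
def S_Cnv : Prop :=
  ∀ (φ : PowerSeries ℂ) (f : Polynomial (Polynomial ℂ)), f ≠ 0 → evS f φ = 0 →
    ∃ (ρ : ℝ) (g : ℂ → ℂ), 0 < ρ ∧ Ser ρ g φ

/-! ## 5. Conjugation -/

/-- **Cjg**. PROOF. `Polynomial.hom_eval₂`, `Polynomial.eval₂_map`, `MvPolynomial.map_aeval` and so on:
both sides are values of ring homomorphisms which agree on the coefficients and the variables. -/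
def S_Cjg : Prop :=
  ∀ σ : ℂ ≃+* ℂ, (∀ (f : Polynomial (Polynomial ℂ)) (φ : PowerSeries ℂ),
      (∀ i j, σ ((f.coeff i).coeff j) = (f.coeff i).coeff j) →
      evS f (PowerSeries.map (σ : ℂ →+* ℂ) φ) = PowerSeries.map (σ : ℂ →+* ℂ) (evS f φ)) ∧
    ∀ (ι : Type) (G : MvPolynomial ι ℚ) (θ : ι → PowerSeries ℂ),
      MvPolynomial.aeval (fun i => PowerSeries.map (σ : ℂ →+* ℂ) (θ i))
          (MvPolynomial.map (algebraMap ℚ ℂ) G) =
        PowerSeries.map (σ : ℂ →+* ℂ) (MvPolynomial.aeval θ (MvPolynomial.map (algebraMap ℚ ℂ) G))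

/-- **Fx**. PROOF. The elements of `ℂ` fixed by `σ` form a subfield which contains `ℚ` and the `u j`. -/
def S_Fx : Prop :=
  ∀ (q : ℕ) (u : Fin q → ℂ) (σ : ℂ ≃+* ℂ), (∀ j, σ (u j) = u j) → ∀ a ∈ TATE.Qs u, σ a = a

/-- **Ker**. PROOF. (module hypotheses: `S_Srg`, `S_Szr`, `S_Spo`, `S_Cjg`) Index type
`ι = Fin q ⊕ (Unit ⊕ Fin n)`; the functions `u_j`, `z`, `Θ_i` have the series `C (u_j)`, `X`, `θ_i`, and
the functions `u_j`, `z`, `Θ'_i` the conjugate series. For `G : MvPolynomial ι ℚ` let `φ_G` be the value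
of `G` at the first series, `φ'_G = map σ φ_G` the value at the second ones. If `φ_G = 0` both functions
vanish on the disc; otherwise `φ_G, φ'_G ≠ 0` and the zeros form a countable set (`Szr`). `E` = the union
over the countably many `G`. For `z ∉ E`: `TATE.exists_aut_of_ker`. -/
def S_Ker : Prop :=
  ∀ (q n : ℕ) (u : Fin q → ℂ) (ρ : ℝ), 0 < ρ → ∀ (Θ Θ' : Fin n → ℂ → ℂ)
    (θ : Fin n → PowerSeries ℂ) (σ : ℂ ≃+* ℂ), (∀ j, σ (u j) = u j) → (∀ i, Ser ρ (Θ i) (θ i)) →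
    (∀ i, Ser ρ (Θ' i) (PowerSeries.map (σ : ℂ →+* ℂ) (θ i))) →
    ∃ E : Set ℂ, E.Countable ∧ ∀ z ∈ ball (0 : ℂ) ρ, z ∉ E →
      ∃ τ : ℂ ≃+* ℂ, (∀ j, τ (u j) = u j) ∧ τ z = z ∧ ∀ i, τ (Θ i z) = Θ' i z

end TNF.CV
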